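import Pool.Agent.H66.AV.TF
import Pool.Agent.H66.IP.TC

/-!
Row GDL of the board avh_modules.
-/

set_option autoImplicit false

namespace Pool.Agent.H86.AVH

open Pool.Agent.H66.IP (Local ins sp dm Good IsZ scl mBp m0p)
open Pool.Agent.H75.OM (BPos)

theorem fin_ex {α β : Type} [Finite α] (f : α → β) : {w : β | ∃ x, w = f x}.Finite :=
  (Set.finite_range f).subset fun w hw => by
    obtain ⟨x, hx⟩ := hw
    exact ⟨x, hx.symm⟩

theorem fin_ex3 {α β γ δ : Type} [Finite α] [Finite β] [Finite γ] (f : α → β → γ → δ) :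
    {w : δ | ∃ u v b, w = f u v b}.Finite :=
  (Set.finite_range fun x : α × β × γ => f x.1 x.2.1 x.2.2).subset fun w hw => by
    obtain ⟨u, v, b, hw⟩ := hw
    exact ⟨(u, v, b), hw.symm⟩

theorem pf_GDL (hGLC : Pool.Agent.H66.IP.T_GLC) : Pool.Agent.H66.AV.T_GDL := by
  intro V p
  have hb : ∃ L, ∀ w, BPos (dm V) p w → w.length ≤ L := by
    have hf : {w : List Bool | BPos (dm V) p w}.Finite := by
      unfold BPos
      exact (fin_ex3 _).union (fin_ex _)
    obtain ⟨L, hL⟩ := (hf.image List.length).bddAbove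
    exact ⟨L, fun w hw => hL ⟨w, hw, rfl⟩⟩
  obtain ⟨L, hL⟩ := hb
  refine ⟨max L (scl V p), fun O O' h hG => hGLC V p O O' (fun w hw => h w ?_) hG⟩
  rcases hw with hw | hw
  · exact le_trans (by omega) (le_max_right _ _)
  · exact le_trans (hL w hw) (le_max_left _ _)

end Pool.Agent.H86.AVH
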