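import Pool.Agent.H66.AV.TF

/-!
Row POW of the board avh_modules.
-/

set_option autoImplicit false

namespace Pool.Agent.H86.AVH

open Finset Pool.Agent.H6.NB Pool.Agent.H70.OQ Pool.Agent.H70.EH Pool.Agent.H70.EI Pool.Agent.H78.XQ
open Pool.Agent.H66.IP (Local ins sp dm Good IsZ scl mBp m0p)
open Pool.Agent.H66.IQ
open Pool.Agent.H66.AV

theorem pf_POW (hANP : T_ANP) (hORP : T_ORP) : Pool.Agent.H66.AV.T_POW := by
  intro k G r
  induction r with
  | zero =>
    constructor
    · refine ⟨.test (.leaf true), ?_, ?_, ?_⟩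
      · simp [Prot.moves]
      · intro d s _
        simp [Bd, Exam.depth, Exam.Small]
      · intro O
        simp [Prot.val, Exam.eval]
    · refine ⟨.test (.leaf false), ?_, ?_, ?_⟩
      · simp [Prot.moves]
      · intro d s _
        simp [Bd, Exam.depth, Exam.Small]
      · intro O
        simp [Prot.val, Exam.eval]
  | succ r ih =>
    obtain ⟨⟨G₁, a1, a2, a3⟩, ⟨G₂, b1, b2, b3⟩⟩ := ih
    constructor
    · obtain ⟨G', c1, c2, c3⟩ := hANP k G₁ G
      refine ⟨G', ?_, ?_, ?_⟩
      · rw [Nat.succ_mul]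
        omega
      · intro d s h
        rw [Nat.succ_mul]
        exact c2 _ _ s (a2 d s h) h
      · intro O
        rw [c3, a3, pow_succ]
    · obtain ⟨G', c1, c2, c3⟩ := hORP k G₂ G
      refine ⟨G', ?_, ?_, ?_⟩
      · rw [Nat.succ_mul]
        omega
      · intro d s h
        rw [Nat.succ_mul]
        exact c2 _ _ s (b2 d s h) h
      · intro O
        rw [c3, b3, pow_succ]

end Pool.Agent.H86.AVH
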